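import Pool.Agent.V5helper51.PL.Stm

set_option autoImplicit false

/-!
# Project PL (helper51): lemmas for the jobs BADM and NEARM (helper68)
-/

namespace Pool.Agent.V5helper68.PL

open Finset Filter MeasureTheory Topology
open Pool.Agent.V5helper51.PL
open Pool.Agent.N748.MG Pool.Agent.N748.MJ

/-- Markov's inequality on a set -/
lemma markov {N E : Set ℝ} (hN : MeasurableSet N) (hNf : volume N ≠ ⊤) {f : ℝ → ℝ}
    (hf : IntegrableOn f N) (h0 : ∀ t ∈ N, 0 ≤ f t) (h1 : ∀ t ∈ N, t ∈ E → 1 ≤ f t) {B : ℝ}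
    (hB : ∫ t in N, f t ≤ B) : volume (E ∩ N) ≤ ENNReal.ofReal B := by
  have : IsFiniteMeasure (volume.restrict N) := ⟨by
    rw [Measure.restrict_apply_univ]; exact lt_top_iff_ne_top.2 hNf⟩
  have h2 : (0 : ℝ → ℝ) ≤ᵐ[volume.restrict N] f := by
    rw [Filter.EventuallyLE, ae_restrict_iff' hN]
    exact Eventually.of_forall h0
  have h3 := mul_meas_ge_le_integral_of_nonneg h2 hf 1
  rw [one_mul] at h3
  have h4 : volume (E ∩ N) ≤ (volume.restrict N) {x | 1 ≤ f x} := by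
    rw [Measure.restrict_apply' hN]
    apply measure_mono
    rintro t ⟨h5, h6⟩
    exact ⟨h1 t h6 h5, h6⟩
  refine h4.trans ?_
  rw [← ENNReal.ofReal_toReal (measure_ne_top (volume.restrict N) {x | 1 ≤ f x})]
  apply ENNReal.ofReal_le_ofReal
  exact h3.trans hB

/-- the mean of `N` values to a power -/
lemma Gm_rpow (δ η t s : ℝ) (N : ℕ) :
    Gm δ N η t ^ (2 * s) = ∏ i : Fin N, mz δ (t + 2 * (((i : ℕ) : ℝ) + 1) * η) ^ (2 * (s / N)) := by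
  unfold Gm
  have h0 : ∀ i ∈ range N, (0 : ℝ) ≤ mz δ (t + 2 * ((i : ℝ) + 1) * η) ^ (1 / (N : ℝ)) :=
    fun i _ => Real.rpow_nonneg (norm_nonneg _) _
  rw [← Real.finsetProd_rpow _ _ h0, Finset.prod_range]
  refine Finset.prod_congr rfl fun i _ => ?_
  have h1 : (0 : ℝ) ≤ mz δ (t + 2 * (((i : ℕ) : ℝ) + 1) * η) := norm_nonneg _
  rw [← Real.rpow_mul h1]
  congr 1
  ring

lemma Gm_nonneg (δ η t : ℝ) (N : ℕ) : 0 ≤ Gm δ N η t :=
  Finset.prod_nonneg fun i _ => Real.rpow_nonneg (norm_nonneg _) _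

/-- the part of the double product with the auxiliary shifts -/
lemma block (z : ℝ → ℝ) (C0 η δ κ A : ℝ) (N : ℕ) (hN : 1 ≤ N) (hη : 0 < η) (hη1 : η ≤ 1)
    (hδ : 0 < δ) (hC0 : 1 ≤ C0) (hz : ∀ x, 0 ≤ z x) (h0 : z 0 ≤ C0 / δ)
    (hA : 2 * (N : ℝ) ≤ A) (hx : ∀ x, η ≤ |x| → |x| ≤ A → z x ≤ C0 / η) :
    ∏ i : Fin N, ∏ l : Fin N, z (2 * (((i : ℕ) : ℝ) + 1) * η - 2 * (((l : ℕ) : ℝ) + 1) * η) ^ (κ * κ) ≤
      (C0 / η) ^ ((N : ℝ) ^ 2 * κ ^ 2) * (1 / δ) ^ ((N : ℝ) * κ ^ 2) := by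
  have hκ : 0 ≤ κ * κ := mul_self_nonneg κ
  have hCη : 0 ≤ C0 / η := by positivity
  have hηδ : 0 ≤ η / δ := by positivity
  have hN0 : (0 : ℝ) < N := by exact_mod_cast hN
  have h1 : ∀ i l : Fin N, z (2 * (((i : ℕ) : ℝ) + 1) * η - 2 * (((l : ℕ) : ℝ) + 1) * η) ^ (κ * κ) ≤
      (C0 / η) ^ (κ * κ) * (if i = l then (η / δ) ^ (κ * κ) else 1) := by
    intro i l
    by_cases h : i = l
    · rw [if_pos h, h, sub_self, ← Real.mul_rpow hCη hηδ]
      apply Real.rpow_le_rpow (hz 0) _ hκ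
      refine h0.trans (le_of_eq ?_)
      field_simp
    · rw [if_neg h, mul_one]
      apply Real.rpow_le_rpow (hz _) _ hκ
      have h2 : 2 * (((i : ℕ) : ℝ) + 1) * η - 2 * (((l : ℕ) : ℝ) + 1) * η =
          2 * ((((i : ℕ) : ℤ) - ((l : ℕ) : ℤ) : ℤ) : ℝ) * η := by push_cast; ring
      have h3 : ((i : ℕ) : ℤ) - ((l : ℕ) : ℤ) ≠ 0 := by
        intro h4
        apply h
        apply Fin.ext
        omega
      have h4 : (1 : ℝ) ≤ |((((i : ℕ) : ℤ) - ((l : ℕ) : ℤ) : ℤ) : ℝ)| := by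
        have := Int.one_le_abs h3
        exact_mod_cast this
      have h5 : |((((i : ℕ) : ℤ) - ((l : ℕ) : ℤ) : ℤ) : ℝ)| ≤ N := by
        have hi := i.isLt
        have hl := l.isLt
        have : |((i : ℕ) : ℤ) - ((l : ℕ) : ℤ)| ≤ (N : ℤ) := by
          rw [abs_le]
          constructor <;> omega
        exact_mod_cast this
      apply hx
      · rw [h2, abs_mul, abs_mul, abs_of_pos hη, abs_two]
        nlinarith
      · rw [h2, abs_mul, abs_mul, abs_of_pos hη, abs_two]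
        refine le_trans ?_ hA
        nlinarith [mul_le_mul h5 hη1 hη.le hN0.le]
  have h2 : ∏ i : Fin N, ∏ l : Fin N,
      z (2 * (((i : ℕ) : ℝ) + 1) * η - 2 * (((l : ℕ) : ℝ) + 1) * η) ^ (κ * κ) ≤
      ∏ i : Fin N, ∏ l : Fin N, ((C0 / η) ^ (κ * κ) * (if i = l then (η / δ) ^ (κ * κ) else 1)) := by
    refine Finset.prod_le_prod (fun i _ => Finset.prod_nonneg fun l _ => Real.rpow_nonneg (hz _) _)
      fun i _ => ?_
    exact Finset.prod_le_prod (fun l _ => Real.rpow_nonneg (hz _) _) fun l _ => h1 i l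
  refine h2.trans ?_
  have h3 : ∏ i : Fin N, ∏ l : Fin N,
      ((C0 / η) ^ (κ * κ) * (if i = l then (η / δ) ^ (κ * κ) else 1)) =
      (C0 / η) ^ ((N : ℝ) ^ 2 * κ ^ 2) * (η / δ) ^ ((N : ℝ) * κ ^ 2) := by
    simp only [Finset.prod_mul_distrib, Finset.prod_const, Finset.card_univ, Fintype.card_fin,
      Finset.prod_ite_eq, Finset.mem_univ, if_true]
    rw [← Real.rpow_natCast, ← Real.rpow_natCast, ← Real.rpow_natCast, ← Real.rpow_mul hCη,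
      ← Real.rpow_mul hCη, ← Real.rpow_mul hηδ]
    congr 2 <;> ring
  rw [h3]
  apply mul_le_mul_of_nonneg_left _ (Real.rpow_nonneg hCη _)
  apply Real.rpow_le_rpow hηδ _ (by positivity)
  exact div_le_div_of_nonneg_right hη1 hδ.le

lemma div_pow_eq (C0 δ a x : ℝ) (hC : 0 < C0) (hδ : 0 < δ) :
    (C0 / δ ^ a) ^ x = C0 ^ x * δ ^ (-(a * x)) := by
  rw [Real.div_rpow hC.le (Real.rpow_nonneg hδ.le _), ← Real.rpow_mul hδ.le, Real.rpow_neg hδ.le,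
    div_eq_mul_inv]

lemma sqrt_ge {X : ℝ} {N : ℕ} (hX : (2 * (N : ℝ)) ^ 2 ≤ X) : 2 * (N : ℝ) ≤ X ^ ((1 : ℝ) / 2) := by
  have h1 : (0 : ℝ) ≤ 2 * (N : ℝ) := by positivity
  calc 2 * (N : ℝ) = ((2 * (N : ℝ)) ^ 2) ^ ((1 : ℝ) / 2) := by
        rw [← Real.rpow_natCast, ← Real.rpow_mul h1]
        norm_num
    _ ≤ X ^ ((1 : ℝ) / 2) := Real.rpow_le_rpow (by positivity) hX (by norm_num)

end Pool.Agent.V5helper68.PL
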