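import Pool.Agent.V5helper68.PL.Bas

set_option autoImplicit false

/-!
# Project PL (helper51): job NEARM, pairs of points with large values at small distances (helper68)
-/

namespace Pool.Agent.V5helper68.PL

open Finset Filter MeasureTheory Topology
open Pool.Agent.V5helper51.PL
open Pool.Agent.N748.MG Pool.Agent.N748.MJ

/-- the shifts -/
noncomputable def hn (N : ℕ) (h η : ℝ) : Fin (N + 2) → ℝ :=
  Fin.cons 0 (Fin.cons h fun i : Fin N => 2 * (((i : ℕ) : ℝ) + 1) * η)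

/-- the exponents -/
noncomputable def kn (N : ℕ) (V : ℝ) : Fin (N + 2) → ℝ :=
  Fin.cons V (Fin.cons V fun _ : Fin N => -(V / N))

/-- a constant product of powers with a negative exponent -/
lemma prod_neg (z : ℝ → ℝ) (V P : ℝ) (N : ℕ) (hN : 1 ≤ N) (hV : 0 < V) (hP : 0 < P)
    (g : Fin N → ℝ) (hz : ∀ i, P ≤ z (g i)) (e : ℝ) (he : e = -(V * V / N)) :
    ∏ i : Fin N, z (g i) ^ e ≤ P ^ (-V ^ 2) := by
  have hN0 : (0 : ℝ) < N := by exact_mod_cast hN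
  have h1 : ∀ i ∈ Finset.univ, z (g i) ^ e ≤ P ^ e := by
    intro i _
    apply Real.rpow_le_rpow_of_nonpos hP (hz i)
    rw [he]
    have : 0 ≤ V * V / N := by positivity
    linarith
  refine (Finset.prod_le_prod (fun i _ => Real.rpow_nonneg (hP.le.trans (hz i)) _) h1).trans ?_
  rw [Finset.prod_const, Finset.card_univ, Fintype.card_fin, ← Real.rpow_natCast,
    ← Real.rpow_mul hP.le, he]
  apply le_of_eq
  congr 1
  field_simp

/-- the double product -/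
lemma prod_n (z : ℝ → ℝ) (C0 c0 η δ V A h L : ℝ) (N : ℕ) (hN : 1 ≤ N) (hη : 0 < η) (hη1 : η ≤ 1)
    (hδ : 0 < δ) (hC0 : 1 ≤ C0) (hc0 : 0 < c0) (hz : ∀ x, 0 ≤ z x) (hV : 0 < V) (hL : 0 < L)
    (hhη : |h| ≤ η) (hze : ∀ x, z (-x) = z x)
    (h0 : z 0 ≤ C0 / δ) (hh : z h ≤ C0 / L) (hA : 2 * (N : ℝ) + 1 ≤ A)
    (hx : ∀ x, η ≤ |x| → |x| ≤ A → z x ≤ C0 / η)
    (hx' : ∀ x, η ≤ |x| → |x| ≤ (2 * N + 1) * η → c0 / ((2 * N + 1) * η) ≤ z x) :
    ∏ j, ∏ l, z (hn N h η j - hn N h η l) ^ (kn N V j * kn N V l) ≤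
      ((C0 / δ) ^ (V ^ 2)) ^ 2 * ((C0 / L) ^ (V ^ 2)) ^ 2 *
      ((c0 / ((2 * N + 1) * η)) ^ (-V ^ 2)) ^ 4 * ((C0 / η) ^ (V ^ 2) * (1 / δ) ^ (V ^ 2 / N)) := by
  have hN0 : (0 : ℝ) < N := by exact_mod_cast hN
  have hCη : 0 ≤ C0 / η := by positivity
  rw [Fin.prod_univ_succ, Fin.prod_univ_succ]
  simp only [Fin.prod_univ_succ, hn, kn, Fin.cons_zero, Fin.cons_succ, sub_zero, zero_sub, hze]
  set P := c0 / ((2 * N + 1) * η) with hPdef
  have hP : 0 < P := by positivity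
  have hsub : (h : ℝ) - h = 0 := sub_self h
  have e1 : z 0 ^ (V * V) ≤ (C0 / δ) ^ (V ^ 2) := by
    rw [sq]
    exact Real.rpow_le_rpow (hz 0) h0 (by positivity)
  have e2 : z h ^ (V * V) ≤ (C0 / L) ^ (V ^ 2) := by
    rw [sq]
    exact Real.rpow_le_rpow (hz h) hh (by positivity)
  have hsh : ∀ i : Fin N, P ≤ z (2 * (((i : ℕ) : ℝ) + 1) * η) := by
    intro i
    have hi : ((i : ℕ) : ℝ) + 1 ≤ N := by exact_mod_cast i.isLt
    have hi0 : (0 : ℝ) ≤ ((i : ℕ) : ℝ) := by positivity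
    apply hx'
    · rw [abs_of_pos (by positivity)]
      nlinarith
    · rw [abs_of_pos (by positivity)]
      nlinarith
  have hsh2 : ∀ i : Fin N, η ≤ |2 * (((i : ℕ) : ℝ) + 1) * η - h| ∧
      |2 * (((i : ℕ) : ℝ) + 1) * η - h| ≤ (2 * N + 1) * η := by
    intro i
    have hi : ((i : ℕ) : ℝ) + 1 ≤ N := by exact_mod_cast i.isLt
    have hi0 : (0 : ℝ) ≤ ((i : ℕ) : ℝ) := by positivity
    obtain ⟨h1, h2⟩ := abs_le.1 hhη
    have h3 : η ≤ 2 * (((i : ℕ) : ℝ) + 1) * η - h := by nlinarith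
    rw [abs_of_pos (by linarith)]
    refine ⟨h3, ?_⟩
    nlinarith
  have hsh3 : ∀ i : Fin N, P ≤ z (2 * (((i : ℕ) : ℝ) + 1) * η - h) := fun i =>
    hx' _ (hsh2 i).1 (hsh2 i).2
  have hsh4 : ∀ i : Fin N, P ≤ z (h - 2 * (((i : ℕ) : ℝ) + 1) * η) := by
    intro i
    rw [← hze, neg_sub]
    exact hsh3 i
  have f1 := prod_neg z V P N hN hV hP (fun i => 2 * (((i : ℕ) : ℝ) + 1) * η) hsh
    (V * -(V / N)) (by ring)
  have f2 := prod_neg z V P N hN hV hP (fun i => h - 2 * (((i : ℕ) : ℝ) + 1) * η) hsh4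
    (V * -(V / N)) (by ring)
  have f3 := prod_neg z V P N hN hV hP (fun i => 2 * (((i : ℕ) : ℝ) + 1) * η) hsh
    (-(V / N) * V) (by ring)
  have f4 := prod_neg z V P N hN hV hP (fun i => 2 * (((i : ℕ) : ℝ) + 1) * η - h) hsh3
    (-(V / N) * V) (by ring)
  have e4 := block z C0 η δ (-(V / N)) A N hN hη hη1 hδ hC0 hz h0 (by linarith) hx
  have e4' : ∏ i : Fin N, ∏ l : Fin N,
      z (2 * (((i : ℕ) : ℝ) + 1) * η - 2 * (((l : ℕ) : ℝ) + 1) * η) ^ (-(V / N) * -(V / N)) ≤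
      (C0 / η) ^ (V ^ 2) * (1 / δ) ^ (V ^ 2 / N) := by
    refine e4.trans (le_of_eq ?_)
    congr 2
    · field_simp
    · field_simp
  rw [Finset.prod_mul_distrib, Finset.prod_mul_distrib, hsub]
  have nn : ∀ (g : Fin N → ℝ) (e : ℝ), 0 ≤ ∏ i : Fin N, z (g i) ^ e := fun g e =>
    Finset.prod_nonneg fun i _ => Real.rpow_nonneg (hz _) _
  have p3 : 0 ≤ ∏ i : Fin N, ∏ l : Fin N,
      z (2 * (((i : ℕ) : ℝ) + 1) * η - 2 * (((l : ℕ) : ℝ) + 1) * η) ^ (-(V / N) * -(V / N)) :=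
    Finset.prod_nonneg fun i _ => Finset.prod_nonneg fun l _ => Real.rpow_nonneg (hz _) _
  have q0 : 0 ≤ z 0 ^ (V * V) := Real.rpow_nonneg (hz _) _
  have qh : 0 ≤ z h ^ (V * V) := Real.rpow_nonneg (hz _) _
  have P0 : 0 ≤ P ^ (-V ^ 2) := by positivity
  have a1 : z 0 ^ (V * V) * (z h ^ (V * V) * ∏ i : Fin N, z (2 * (((i : ℕ) : ℝ) + 1) * η) ^ (V * -(V / N)))
      ≤ (C0 / δ) ^ (V ^ 2) * ((C0 / L) ^ (V ^ 2) * P ^ (-V ^ 2)) :=
    mul_le_mul e1 (mul_le_mul e2 f1 (nn _ _) (by positivity)) (mul_nonneg qh (nn _ _)) (by positivity)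
  have a2 : z h ^ (V * V) * (z 0 ^ (V * V) * ∏ i : Fin N, z (h - 2 * (((i : ℕ) : ℝ) + 1) * η) ^ (V * -(V / N)))
      ≤ (C0 / L) ^ (V ^ 2) * ((C0 / δ) ^ (V ^ 2) * P ^ (-V ^ 2)) :=
    mul_le_mul e2 (mul_le_mul e1 f2 (nn _ _) (by positivity)) (mul_nonneg q0 (nn _ _)) (by positivity)
  have a3 : (∏ i : Fin N, z (2 * (((i : ℕ) : ℝ) + 1) * η) ^ (-(V / N) * V)) *
      ((∏ i : Fin N, z (2 * (((i : ℕ) : ℝ) + 1) * η - h) ^ (-(V / N) * V)) *
      ∏ i : Fin N, ∏ l : Fin N,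
      z (2 * (((i : ℕ) : ℝ) + 1) * η - 2 * (((l : ℕ) : ℝ) + 1) * η) ^ (-(V / N) * -(V / N))) ≤
      P ^ (-V ^ 2) * (P ^ (-V ^ 2) * ((C0 / η) ^ (V ^ 2) * (1 / δ) ^ (V ^ 2 / N))) :=
    mul_le_mul f3 (mul_le_mul f4 e4' p3 P0) (mul_nonneg (nn _ _) p3) P0
  calc _ ≤ ((C0 / δ) ^ (V ^ 2) * ((C0 / L) ^ (V ^ 2) * P ^ (-V ^ 2))) *
      (((C0 / L) ^ (V ^ 2) * ((C0 / δ) ^ (V ^ 2) * P ^ (-V ^ 2))) *
      (P ^ (-V ^ 2) * (P ^ (-V ^ 2) * ((C0 / η) ^ (V ^ 2) * (1 / δ) ^ (V ^ 2 / N))))) := by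
        apply mul_le_mul a1 (mul_le_mul a2 a3 (mul_nonneg (nn _ _) (mul_nonneg (nn _ _) p3))
          (by positivity)) _ (by positivity)
        exact mul_nonneg (mul_nonneg qh (mul_nonneg q0 (nn _ _)))
          (mul_nonneg (nn _ _) (mul_nonneg (nn _ _) p3))
    _ = _ := by ring

lemma z1_neg (δ x : ℝ) : z1 δ (-x) = z1 δ x := by
  unfold z1
  have h : (((1 + 2 * δ : ℝ) : ℂ) + ((-x : ℝ) : ℂ) * Complex.I) =
      (starRingEnd ℂ) (((1 + 2 * δ : ℝ) : ℂ) + (x : ℂ) * Complex.I) := by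
    rw [map_add, map_mul, Complex.conj_ofReal, Complex.conj_ofReal, Complex.conj_I]
    push_cast
    ring
  rw [h, riemannZeta_conj, RCLike.norm_conj]

/-- the scale of a number between `δ` and `1` -/
lemma choose_j (δ L : ℝ) (M : ℕ) (hM : 1 ≤ M) (h1 : δ ≤ L) (h2 : L ≤ 1) :
    ∃ j < M, L ≤ δ ^ ((j : ℝ) / M) ∧ δ ^ (((j : ℝ) + 1) / M) ≤ L := by
  by_contra hcon
  push Not at hcon
  have hM0 : (M : ℝ) ≠ 0 := by
    have : M ≠ 0 := by omega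
    exact_mod_cast this
  have h3 : ∀ j : ℕ, j < M → L ≤ δ ^ ((j : ℝ) / M) := by
    intro j
    induction j with
    | zero => intro _; simpa using h2
    | succ j ih =>
      intro hj
      have h4 := hcon j (by omega) (ih (by omega))
      push_cast
      exact h4.le
  have h4 := hcon (M - 1) (by omega) (h3 (M - 1) (by omega))
  have h5 : (((M - 1 : ℕ) : ℝ) + 1) / M = 1 := by
    rw [Nat.cast_sub hM]
    field_simp
    ring
  rw [h5, Real.rpow_one] at h4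
  linarith

/-- the exponents of `δ` -/
lemma expo_n (C0 c0 δ V a ε L : ℝ) (N M : ℕ) (hδ : 0 < δ) (hδ1 : δ ≤ 1)
    (hC0 : 1 ≤ C0) (hc0 : 0 < c0) (hV : 0 < V) (hL : 0 < L) (haL : δ ^ (a + 1 / M) ≤ L) :
    (δ ^ (-(a * V + ε))) ^ (2 * V) *
      (((C0 / δ) ^ (V ^ 2)) ^ 2 * ((C0 / L) ^ (V ^ 2)) ^ 2 *
      ((c0 / ((2 * N + 1) * δ ^ a)) ^ (-V ^ 2)) ^ 4 *
      ((C0 / δ ^ a) ^ (V ^ 2) * (1 / δ) ^ (V ^ 2 / N))) ≤
      (C0 ^ (V ^ 2)) ^ 5 * ((c0 / (2 * N + 1)) ^ (-V ^ 2)) ^ 4 *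
        (δ ^ (-(2 * V ^ 2 + V ^ 2 / N + 2 * V ^ 2 / M + 2 * V * ε)) * L ^ (-V ^ 2)) := by
  have hC : 0 < C0 := by linarith
  have e1 : (C0 / δ) ^ (V ^ 2) = C0 ^ (V ^ 2) * δ ^ (-V ^ 2) := by
    have := div_pow_eq C0 δ 1 (V ^ 2) hC hδ
    rw [Real.rpow_one, one_mul] at this
    exact this
  have e1' : (C0 / L) ^ (V ^ 2) = C0 ^ (V ^ 2) * L ^ (-V ^ 2) := by
    have := div_pow_eq C0 L 1 (V ^ 2) hC hL
    rw [Real.rpow_one, one_mul] at this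
    exact this
  have e2 : (1 / δ) ^ (V ^ 2 / N) = δ ^ (-(V ^ 2 / N)) := by
    rw [Real.rpow_neg hδ.le, one_div, Real.inv_rpow hδ.le]
  have e3 : (δ ^ (-(a * V + ε))) ^ (2 * V) = δ ^ (-(a * V + ε) * (2 * V)) := by
    rw [← Real.rpow_mul hδ.le]
  have e4 : (c0 / ((2 * N + 1) * δ ^ a)) ^ (-V ^ 2) =
      (c0 / (2 * N + 1)) ^ (-V ^ 2) * δ ^ (a * V ^ 2) := by
    have h1 : c0 / ((2 * N + 1) * δ ^ a) = c0 / (2 * N + 1) / δ ^ a := by
      rw [div_div]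
    rw [h1, div_pow_eq _ δ a _ (by positivity) hδ]
    congr 2
    ring
  rw [e1, e1', e2, e3, e4, div_pow_eq C0 δ a _ hC hδ]
  have hsq : ∀ x : ℝ, (δ ^ x) ^ 2 = δ ^ (x + x) := fun x => by
    rw [Real.rpow_add hδ, sq]
  have hq : ∀ x : ℝ, (δ ^ x) ^ 4 = δ ^ (x + x + x + x) := fun x => by
    rw [Real.rpow_add hδ, Real.rpow_add hδ, Real.rpow_add hδ]
    ring
  have hLsq : (L ^ (-V ^ 2)) ^ 2 = L ^ (-V ^ 2) * L ^ (-V ^ 2) := sq _
  have e5 : δ ^ (-(a * V + ε) * (2 * V)) * ((C0 ^ (V ^ 2) * δ ^ (-V ^ 2)) ^ 2 *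
      (C0 ^ (V ^ 2) * L ^ (-V ^ 2)) ^ 2 *
      ((c0 / (2 * N + 1)) ^ (-V ^ 2) * δ ^ (a * V ^ 2)) ^ 4 *
      (C0 ^ (V ^ 2) * δ ^ (-(a * V ^ 2)) * δ ^ (-(V ^ 2 / N)))) =
      (C0 ^ (V ^ 2)) ^ 5 * ((c0 / (2 * N + 1)) ^ (-V ^ 2)) ^ 4 *
      (δ ^ (-(a * V + ε) * (2 * V) + (-V ^ 2 + -V ^ 2) +
        (a * V ^ 2 + a * V ^ 2 + a * V ^ 2 + a * V ^ 2) + -(a * V ^ 2) + -(V ^ 2 / N)) *
        L ^ (-V ^ 2) * L ^ (-V ^ 2)) := by
    rw [Real.rpow_add hδ, Real.rpow_add hδ, Real.rpow_add hδ, Real.rpow_add hδ, ← hsq, ← hq]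
    ring
  rw [e5]
  apply mul_le_mul_of_nonneg_left _ (by positivity)
  have e6 : δ ^ ((a + 1 / M) * V ^ 2) ≤ L ^ (V ^ 2) := by
    rw [Real.rpow_mul hδ.le]
    exact Real.rpow_le_rpow (by positivity) haL (by positivity)
  have e7 : -(a * V + ε) * (2 * V) + (-V ^ 2 + -V ^ 2) +
      (a * V ^ 2 + a * V ^ 2 + a * V ^ 2 + a * V ^ 2) + -(a * V ^ 2) + -(V ^ 2 / N) =
      (a + 1 / M) * V ^ 2 + -(2 * V ^ 2 + V ^ 2 / N + V ^ 2 / M + 2 * V * ε) := by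
    ring
  rw [e7, Real.rpow_add hδ]
  have hLp : 0 < L ^ (V ^ 2) := by positivity
  have e8 : L ^ (-V ^ 2) = (L ^ (V ^ 2))⁻¹ := Real.rpow_neg hL.le _
  have e9 : δ ^ (-(2 * V ^ 2 + V ^ 2 / N + V ^ 2 / M + 2 * V * ε)) ≤
      δ ^ (-(2 * V ^ 2 + V ^ 2 / N + 2 * V ^ 2 / M + 2 * V * ε)) := by
    apply Real.rpow_le_rpow_of_exponent_ge hδ hδ1
    have h1 : 0 ≤ V ^ 2 / M := by positivity
    have h2 : 2 * V ^ 2 / M = V ^ 2 / M + V ^ 2 / M := by ring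
    rw [h2]
    linarith
  calc δ ^ ((a + 1 / M) * V ^ 2) * δ ^ (-(2 * V ^ 2 + V ^ 2 / N + V ^ 2 / M + 2 * V * ε)) *
        L ^ (-V ^ 2) * L ^ (-V ^ 2)
      ≤ L ^ (V ^ 2) * δ ^ (-(2 * V ^ 2 + V ^ 2 / N + 2 * V ^ 2 / M + 2 * V * ε)) *
        L ^ (-V ^ 2) * L ^ (-V ^ 2) := by
        apply mul_le_mul_of_nonneg_right _ (by positivity)
        apply mul_le_mul_of_nonneg_right _ (by positivity)
        exact mul_le_mul e6 e9 (by positivity) (by positivity)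
    _ = _ := by
        rw [e8]
        field_simp

/-- NEARM -/
theorem t_NEARM (hR : S_RJM) (hZ : S_ZB1) : S_NEARM := by
  intro V D ε hV hD hε M N hM hN
  have hN0 : (0 : ℝ) < N := by exact_mod_cast hN
  have hM0 : (0 : ℝ) < M := by exact_mod_cast hM
  obtain ⟨c0, C0', δ1, hc0, hC0', hδ1, hZ1⟩ := hZ (2 * (N : ℝ) + 2) (by linarith)
  obtain ⟨C0, hC0⟩ : ∃ C0 : ℝ, C0 = max C0' 1 := ⟨_, rfl⟩
  have hC01 : 1 ≤ C0 := by rw [hC0]; exact le_max_right _ _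
  have hC0le : C0' ≤ C0 := by rw [hC0]; exact le_max_left _ _
  have hC0p : 0 < C0 := by linarith
  obtain ⟨C1, hC1, lam, δ0, hlam, hδ0, hδ0', hEv⟩ := hR (N + 2) V D hV hD
  set K : ℝ := (C0 ^ (V ^ 2)) ^ 5 * ((c0 / (2 * N + 1)) ^ (-V ^ 2)) ^ 4 with hK
  have hKp : 0 < K := by positivity
  refine ⟨C1 * K, by positivity, lam, min δ0 δ1, hlam, lt_min hδ0 hδ1,
    (min_le_left _ _).trans hδ0', ?_⟩
  filter_upwards [hEv, eventually_ge_atTop ((2 * (N : ℝ)) ^ 2), eventually_gt_atTop 0] with X hX hX2 hX0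
  intro δ hδ hδle hlog c hc h hh1
  have d1 : δ ≤ δ0 := hδle.trans (min_le_left _ _)
  have d2 : δ ≤ δ1 := hδle.trans (min_le_right _ _)
  have d4 : δ ≤ 1 := by linarith
  have hz : ∀ x, 0 ≤ z1 δ x := fun x => norm_nonneg _
  have hz0 : z1 δ 0 ≤ C0 / δ := by
    have := (hZ1 δ hδ d2 0 (by rw [abs_zero]; positivity)).2
    rw [abs_zero, max_eq_right hδ.le] at this
    rw [le_div_iff₀ hδ]
    exact this.trans hC0le
  obtain ⟨L, hL⟩ : ∃ L : ℝ, L = max |h| δ := ⟨_, rfl⟩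
  have hLδ : δ ≤ L := by rw [hL]; exact le_max_right _ _
  have hLh : |h| ≤ L := by rw [hL]; exact le_max_left _ _
  have hL0 : 0 < L := hδ.trans_le hLδ
  have hL1 : L ≤ 1 := by rw [hL]; exact max_le hh1 d4
  obtain ⟨j, hj, hj1, hj2⟩ := choose_j δ L M hM hLδ hL1
  obtain ⟨a, ha⟩ : ∃ a : ℝ, a = (j : ℝ) / M := ⟨_, rfl⟩
  have ha0 : 0 ≤ a := by rw [ha]; positivity
  have ha1 : a ≤ 1 := by
    rw [ha, div_le_one hM0]
    exact_mod_cast hj.le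
  obtain ⟨η, hη⟩ : ∃ η : ℝ, η = δ ^ a := ⟨_, rfl⟩
  have hη0 : 0 < η := by rw [hη]; positivity
  have hη1 : η ≤ 1 := by rw [hη]; exact Real.rpow_le_one hδ.le d4 ha0
  have hηδ : δ ≤ η := by
    rw [hη]
    conv_lhs => rw [← Real.rpow_one δ]
    exact Real.rpow_le_rpow_of_exponent_ge hδ d4 ha1
  have hLη : L ≤ η := by rw [hη, ha]; exact hj1
  have haL : δ ^ (a + 1 / M) ≤ L := by
    rw [ha, ← add_div]
    exact hj2
  obtain ⟨b, hb'⟩ : ∃ b : ℝ, b = δ ^ (-(a * V + ε)) := ⟨_, rfl⟩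
  have hb0 : 0 < b := by rw [hb']; positivity
  have hzη : ∀ x, η ≤ |x| → |x| ≤ 2 * (N : ℝ) + 2 → z1 δ x ≤ C0 / η := by
    intro x hx1 hx2
    have h1 := (hZ1 δ hδ d2 x hx2).2
    rw [le_div_iff₀ hη0]
    have h2 : η ≤ max |x| δ := hx1.trans (le_max_left _ _)
    have h3 := mul_le_mul_of_nonneg_left h2 (hz x)
    linarith
  have hzη' : ∀ x, η ≤ |x| → |x| ≤ (2 * (N : ℝ) + 1) * η → c0 / ((2 * N + 1) * η) ≤ z1 δ x := by
    intro x hx1 hx2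
    have hx3 : |x| ≤ 2 * (N : ℝ) + 2 := by nlinarith
    have h1 := (hZ1 δ hδ d2 x hx3).1
    rw [div_le_iff₀ (by positivity)]
    have h2 : max |x| δ ≤ (2 * (N : ℝ) + 1) * η := by
      apply max_le hx2
      nlinarith
    have h3 := mul_le_mul_of_nonneg_left h2 (hz x)
    linarith
  have hzh : z1 δ h ≤ C0 / L := by
    have h1 := (hZ1 δ hδ d2 h (by linarith)).2
    rw [← hL] at h1
    rw [le_div_iff₀ hL0]
    linarith
  obtain ⟨S, hSm, hSs, hSv, hSp, hSk⟩ := hX δ hδ d1 hlog (hn N h η) (by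
    intro i
    refine le_trans ?_ (sqrt_ge hX2)
    refine Fin.cases ?_ (fun i => ?_) i
    · simp only [hn, Fin.cons_zero, abs_zero]; positivity
    · refine Fin.cases ?_ (fun i => ?_) i
      · simp only [hn, Fin.cons_zero, Fin.cons_succ]
        have : (1 : ℝ) ≤ N := by exact_mod_cast hN
        linarith
      · simp only [hn, Fin.cons_succ]
        have hi : ((i : ℕ) : ℝ) + 1 ≤ N := by exact_mod_cast i.isLt
        rw [abs_of_pos (by positivity)]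
        nlinarith [mul_le_mul hi hη1 hη0.le hN0.le])
  obtain ⟨hint, hle⟩ := hSk (kn N V) (by
    intro i
    refine Fin.cases ?_ (fun i => ?_) i
    · simp only [kn, Fin.cons_zero, abs_of_pos hV]; exact le_rfl
    · refine Fin.cases ?_ (fun i => ?_) i
      · simp only [kn, Fin.cons_zero, Fin.cons_succ, abs_of_pos hV]; exact le_rfl
      · simp only [kn, Fin.cons_succ]
        rw [abs_neg, abs_of_pos (by positivity)]
        exact div_le_self hV.le (by exact_mod_cast hN))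
  have hprod := prod_n (z1 δ) C0 c0 η δ V (2 * (N : ℝ) + 2) h L N hN hη0 hη1 hδ hC01 hc0 hz hV hL0
    (hLh.trans hLη) (z1_neg δ) hz0 hzh (by linarith) hzη hzη'
  have hcov : {t : ℝ | 0 ≤ t ∧ t ≤ X ∧ c < mz δ t ∧ c < mz δ (t + h) ∧ Gd V ε M N δ t} ⊆
      (Set.Icc 0 X \ S) ∪ ({t : ℝ | c < mz δ t ∧ c < mz δ (t + h) ∧ Gm δ N η t ≤ b} ∩ S) := by
    rintro t ⟨t1, t2, t3, t4, t5⟩
    by_cases hS : t ∈ S
    · refine Or.inr ⟨⟨t3, t4, ?_⟩, hS⟩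
      have := t5 j hj
      rw [← ha, ← hη, ← hb'] at this
      exact this
    · exact Or.inl ⟨⟨t1, t2⟩, hS⟩
  have hSf : volume S ≠ ⊤ := by
    refine ne_top_of_le_ne_top ?_ (measure_mono hSs)
    rw [Real.volume_Icc]
    exact ENNReal.ofReal_ne_top
  have hmk := markov (E := {t : ℝ | c < mz δ t ∧ c < mz δ (t + h) ∧ Gm δ N η t ≤ b}) hSm hSf
    (f := fun t => c ^ (-(4 * V)) * b ^ (2 * V) * ∏ i, mz δ (t + hn N h η i) ^ (2 * kn N V i))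
    (hint.const_mul _)
    (fun t _ => by
      apply mul_nonneg (by positivity)
      exact Finset.prod_nonneg fun i _ => Real.rpow_nonneg (norm_nonneg _) _)
    (fun t htS ht => by
      obtain ⟨t3, t4, t5⟩ := ht
      have hGp : 0 < Gm δ N η t := by
        unfold Gm
        refine Finset.prod_pos fun i hi => ?_
        rw [Finset.mem_range] at hi
        have := hSp t htS (Fin.succ (Fin.succ ⟨i, hi⟩))
        simp only [hn, Fin.cons_succ] at this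
        exact Real.rpow_pos_of_pos this _
      have e1 : ∏ i, mz δ (t + hn N h η i) ^ (2 * kn N V i) =
          mz δ t ^ (2 * V) * (mz δ (t + h) ^ (2 * V) * (Gm δ N η t ^ (2 * V))⁻¹) := by
        have g1 := Gm_rpow δ η t (-V) N
        have g2 : (2 : ℝ) * -V = -(2 * V) := by ring
        rw [g2, Real.rpow_neg hGp.le] at g1
        rw [Fin.prod_univ_succ, Fin.prod_univ_succ, g1]
        simp only [hn, kn, Fin.cons_zero, Fin.cons_succ, add_zero]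
        congr 3
        funext i
        congr 1
        ring
      rw [e1, Real.rpow_neg hc.le]
      have e2 : c ^ (2 * V) ≤ mz δ t ^ (2 * V) :=
        Real.rpow_le_rpow hc.le t3.le (by positivity)
      have e2' : c ^ (2 * V) ≤ mz δ (t + h) ^ (2 * V) :=
        Real.rpow_le_rpow hc.le t4.le (by positivity)
      have e3 : Gm δ N η t ^ (2 * V) ≤ b ^ (2 * V) :=
        Real.rpow_le_rpow hGp.le t5 (by positivity)
      have e0 : c ^ (4 * V) = c ^ (2 * V) * c ^ (2 * V) := by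
        rw [← Real.rpow_add hc]
        congr 1
        ring
      have p1 : 0 < c ^ (2 * V) := by positivity
      have p2 : 0 < Gm δ N η t ^ (2 * V) := by positivity
      have e4 : 1 ≤ (mz δ t ^ (2 * V) / c ^ (2 * V)) * ((mz δ (t + h) ^ (2 * V) / c ^ (2 * V)) *
          (b ^ (2 * V) / Gm δ N η t ^ (2 * V))) :=
        one_le_mul_of_one_le_of_one_le ((one_le_div p1).2 e2)
          (one_le_mul_of_one_le_of_one_le ((one_le_div p1).2 e2') ((one_le_div p2).2 e3))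
      rw [e0]
      calc (1 : ℝ) ≤ _ := e4
        _ = _ := by field_simp)
    (B := X * (C1 * K * c ^ (-(4 * V)) *
      δ ^ (-(2 * V ^ 2 + V ^ 2 / N + 2 * V ^ 2 / M + 2 * V * ε)) * L ^ (-V ^ 2))) (by
      rw [integral_const_mul]
      have h1 := hle.trans (mul_le_mul_of_nonneg_left hprod (by positivity : 0 ≤ C1 * X))
      have h2 := expo_n C0 c0 δ V a ε L N M hδ d4 hC01 hc0 hV hL0 haL
      rw [← hb', ← hη, ← hK] at h2
      calc c ^ (-(4 * V)) * b ^ (2 * V) * ∫ t in S, ∏ i, mz δ (t + hn N h η i) ^ (2 * kn N V i)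
          ≤ c ^ (-(4 * V)) * b ^ (2 * V) * (C1 * X *
            (((C0 / δ) ^ (V ^ 2)) ^ 2 * ((C0 / L) ^ (V ^ 2)) ^ 2 *
            ((c0 / ((2 * N + 1) * η)) ^ (-V ^ 2)) ^ 4 *
            ((C0 / η) ^ (V ^ 2) * (1 / δ) ^ (V ^ 2 / N)))) :=
            mul_le_mul_of_nonneg_left h1 (by positivity)
        _ = c ^ (-(4 * V)) * (C1 * X) * (b ^ (2 * V) *
            (((C0 / δ) ^ (V ^ 2)) ^ 2 * ((C0 / L) ^ (V ^ 2)) ^ 2 *
            ((c0 / ((2 * N + 1) * η)) ^ (-V ^ 2)) ^ 4 *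
            ((C0 / η) ^ (V ^ 2) * (1 / δ) ^ (V ^ 2 / N)))) := by ring
        _ ≤ c ^ (-(4 * V)) * (C1 * X) * (K *
            (δ ^ (-(2 * V ^ 2 + V ^ 2 / N + 2 * V ^ 2 / M + 2 * V * ε)) * L ^ (-V ^ 2))) :=
            mul_le_mul_of_nonneg_left h2 (by positivity)
        _ = _ := by ring)
  rw [← hL]
  calc _ ≤ volume ((Set.Icc 0 X \ S) ∪
        ({t : ℝ | c < mz δ t ∧ c < mz δ (t + h) ∧ Gm δ N η t ≤ b} ∩ S)) := measure_mono hcov
    _ ≤ volume (Set.Icc 0 X \ S) +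
        volume ({t : ℝ | c < mz δ t ∧ c < mz δ (t + h) ∧ Gm δ N η t ≤ b} ∩ S) :=
        measure_union_le _ _
    _ ≤ ENNReal.ofReal (δ ^ D * X) + ENNReal.ofReal (X * (C1 * K * c ^ (-(4 * V)) *
        δ ^ (-(2 * V ^ 2 + V ^ 2 / N + 2 * V ^ 2 / M + 2 * V * ε)) * L ^ (-V ^ 2))) :=
        add_le_add hSv hmk
    _ = _ := by
        rw [← ENNReal.ofReal_add (by positivity) (by positivity)]
        congr 1
        ring

end Pool.Agent.V5helper68.PL
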