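import Pool.Agent.V5helper68.PL.Bas

set_option autoImplicit false

/-!
# Project PL (helper51): job BADM, the bad points with large values are rare (helper68)
-/

namespace Pool.Agent.V5helper68.PL

open Finset Filter MeasureTheory Topology
open Pool.Agent.V5helper51.PL
open Pool.Agent.N748.MG Pool.Agent.N748.MJ

/-- the shifts -/
noncomputable def hb (N : ℕ) (η : ℝ) : Fin (N + 1) → ℝ :=
  Fin.cons 0 fun i : Fin N => 2 * (((i : ℕ) : ℝ) + 1) * η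

/-- the exponents -/
noncomputable def kb (N : ℕ) (V s : ℝ) : Fin (N + 1) → ℝ :=
  Fin.cons V fun _ : Fin N => s / N

/-- the double product -/
lemma prod_b (z : ℝ → ℝ) (C0 η δ V s A : ℝ) (N : ℕ) (hN : 1 ≤ N) (hη : 0 < η) (hη1 : η ≤ 1)
    (hδ : 0 < δ) (hC0 : 1 ≤ C0) (hz : ∀ x, 0 ≤ z x) (hV : 0 < V) (hs : 0 < s)
    (h0 : z 0 ≤ C0 / δ) (hA : 2 * (N : ℝ) ≤ A) (hx : ∀ x, η ≤ |x| → |x| ≤ A → z x ≤ C0 / η) :
    ∏ j, ∏ l, z (hb N η j - hb N η l) ^ (kb N V s j * kb N V s l) ≤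
      (C0 / δ) ^ (V ^ 2) * (C0 / η) ^ (2 * V * s) * ((C0 / η) ^ (s ^ 2) * (1 / δ) ^ (s ^ 2 / N)) := by
  have hN0 : (0 : ℝ) < N := by exact_mod_cast hN
  have hCη : 0 ≤ C0 / η := by positivity
  rw [Fin.prod_univ_succ, Fin.prod_univ_succ]
  simp only [hb, kb, Fin.cons_zero, Fin.cons_succ, sub_zero, zero_sub, Fin.prod_univ_succ]
  have e1 : z 0 ^ (V * V) ≤ (C0 / δ) ^ (V ^ 2) := by
    rw [sq]
    exact Real.rpow_le_rpow (hz 0) h0 (by positivity)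
  have hsh : ∀ i : Fin N, η ≤ |2 * (((i : ℕ) : ℝ) + 1) * η| ∧ |2 * (((i : ℕ) : ℝ) + 1) * η| ≤ A := by
    intro i
    have hi : ((i : ℕ) : ℝ) + 1 ≤ N := by exact_mod_cast i.isLt
    have hi0 : (0 : ℝ) ≤ ((i : ℕ) : ℝ) := by positivity
    rw [abs_of_pos (by positivity)]
    constructor
    · nlinarith
    · refine le_trans ?_ hA
      nlinarith [mul_le_mul hi hη1 hη.le hN0.le]
  have e2 : ∀ i : Fin N, z (-(2 * (((i : ℕ) : ℝ) + 1) * η)) ^ (V * (s / N)) ≤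
      (C0 / η) ^ (V * (s / N)) := fun i =>
    Real.rpow_le_rpow (hz _) (hx _ (by rw [abs_neg]; exact (hsh i).1)
      (by rw [abs_neg]; exact (hsh i).2)) (by positivity)
  have e3 : ∀ i : Fin N, z (2 * (((i : ℕ) : ℝ) + 1) * η) ^ (s / N * V) ≤
      (C0 / η) ^ (s / N * V) := fun i =>
    Real.rpow_le_rpow (hz _) (hx _ (hsh i).1 (hsh i).2) (by positivity)
  have e2' : ∏ i : Fin N, z (-(2 * (((i : ℕ) : ℝ) + 1) * η)) ^ (V * (s / N)) ≤
      (C0 / η) ^ (V * s) := by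
    refine (Finset.prod_le_prod (fun i _ => Real.rpow_nonneg (hz _) _) fun i _ => e2 i).trans ?_
    rw [Finset.prod_const, Finset.card_univ, Fintype.card_fin, ← Real.rpow_natCast,
      ← Real.rpow_mul hCη]
    apply le_of_eq
    congr 1
    field_simp
  have e3' : ∏ i : Fin N, z (2 * (((i : ℕ) : ℝ) + 1) * η) ^ (s / N * V) ≤
      (C0 / η) ^ (V * s) := by
    refine (Finset.prod_le_prod (fun i _ => Real.rpow_nonneg (hz _) _) fun i _ => e3 i).trans ?_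
    rw [Finset.prod_const, Finset.card_univ, Fintype.card_fin, ← Real.rpow_natCast,
      ← Real.rpow_mul hCη]
    apply le_of_eq
    congr 1
    field_simp
  have e4 := block z C0 η δ (s / N) A N hN hη hη1 hδ hC0 hz h0 hA hx
  have e4' : ∏ i : Fin N, ∏ l : Fin N,
      z (2 * (((i : ℕ) : ℝ) + 1) * η - 2 * (((l : ℕ) : ℝ) + 1) * η) ^ (s / N * (s / N)) ≤
      (C0 / η) ^ (s ^ 2) * (1 / δ) ^ (s ^ 2 / N) := by
    refine e4.trans (le_of_eq ?_)
    congr 2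
    · field_simp
    · field_simp
  rw [Finset.prod_mul_distrib]
  have p1 : 0 ≤ ∏ i : Fin N, z (2 * (((i : ℕ) : ℝ) + 1) * η) ^ (s / N * V) :=
    Finset.prod_nonneg fun i _ => Real.rpow_nonneg (hz _) _
  have p2 : 0 ≤ ∏ i : Fin N, z (-(2 * (((i : ℕ) : ℝ) + 1) * η)) ^ (V * (s / N)) :=
    Finset.prod_nonneg fun i _ => Real.rpow_nonneg (hz _) _
  have p3 : 0 ≤ ∏ i : Fin N, ∏ l : Fin N,
      z (2 * (((i : ℕ) : ℝ) + 1) * η - 2 * (((l : ℕ) : ℝ) + 1) * η) ^ (s / N * (s / N)) :=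
    Finset.prod_nonneg fun i _ => Finset.prod_nonneg fun l _ => Real.rpow_nonneg (hz _) _
  calc _ ≤ (C0 / δ) ^ (V ^ 2) * (C0 / η) ^ (V * s) *
      ((C0 / η) ^ (V * s) * ((C0 / η) ^ (s ^ 2) * (1 / δ) ^ (s ^ 2 / N))) := by
        apply mul_le_mul (mul_le_mul e1 e2' p2 (by positivity))
          (mul_le_mul e3' e4' p3 (by positivity)) (mul_nonneg p1 p3) (by positivity)
    _ = _ := by
        have : (C0 / η) ^ (2 * V * s) = (C0 / η) ^ (V * s) * (C0 / η) ^ (V * s) := by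
          rw [← Real.rpow_add (by positivity)]
          congr 1
          ring
        rw [this]
        ring

/-- the exponents of `δ` -/
lemma expo_b (C0 δ V s a ε : ℝ) (N : ℕ) (hN : 1 ≤ N) (hδ : 0 < δ) (hδ1 : δ ≤ 1) (hC0 : 1 ≤ C0)
    (ha : 0 ≤ a) (ha1 : a ≤ 1) (hs : s = ε / 2) :
    (δ ^ (-(a * V + ε))) ^ (-(2 * s)) *
      ((C0 / δ) ^ (V ^ 2) * (C0 / δ ^ a) ^ (2 * V * s) *
        ((C0 / δ ^ a) ^ (s ^ 2) * (1 / δ) ^ (s ^ 2 / N))) ≤
      C0 ^ (V ^ 2) * C0 ^ (2 * V * s) * C0 ^ (s ^ 2) * δ ^ (-V ^ 2 + ε ^ 2 / 2) := by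
  have hC : 0 < C0 := by linarith
  have hN0 : (1 : ℝ) ≤ N := by exact_mod_cast hN
  have e1 : (C0 / δ) ^ (V ^ 2) = C0 ^ (V ^ 2) * δ ^ (-V ^ 2) := by
    have := div_pow_eq C0 δ 1 (V ^ 2) hC hδ
    rw [Real.rpow_one, one_mul] at this
    exact this
  have e2 : (1 / δ) ^ (s ^ 2 / N) = δ ^ (-(s ^ 2 / N)) := by
    rw [Real.rpow_neg hδ.le, one_div, Real.inv_rpow hδ.le]
  have e3 : (δ ^ (-(a * V + ε))) ^ (-(2 * s)) = δ ^ ((a * V + ε) * (2 * s)) := by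
    rw [← Real.rpow_mul hδ.le]
    congr 1
    ring
  rw [e1, e2, e3, div_pow_eq C0 δ a _ hC hδ, div_pow_eq C0 δ a _ hC hδ]
  have e4 : δ ^ ((a * V + ε) * (2 * s)) * (C0 ^ (V ^ 2) * δ ^ (-V ^ 2) *
      (C0 ^ (2 * V * s) * δ ^ (-(a * (2 * V * s)))) *
      (C0 ^ (s ^ 2) * δ ^ (-(a * s ^ 2)) * δ ^ (-(s ^ 2 / N)))) =
      C0 ^ (V ^ 2) * C0 ^ (2 * V * s) * C0 ^ (s ^ 2) *
        δ ^ ((a * V + ε) * (2 * s) + -V ^ 2 + -(a * (2 * V * s)) + -(a * s ^ 2) + -(s ^ 2 / N)) := by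
    rw [Real.rpow_add hδ, Real.rpow_add hδ, Real.rpow_add hδ, Real.rpow_add hδ]
    ring
  rw [e4]
  apply mul_le_mul_of_nonneg_left _ (by positivity)
  apply Real.rpow_le_rpow_of_exponent_ge hδ hδ1
  have h1 : s ^ 2 / N ≤ s ^ 2 := div_le_self (sq_nonneg s) hN0
  have h2 : a * s ^ 2 ≤ s ^ 2 := mul_le_of_le_one_left (sq_nonneg s) ha1
  have h3 : s ^ 2 = ε ^ 2 / 4 := by rw [hs]; ring
  have h4 : (a * V + ε) * (2 * s) = a * (2 * V * s) + ε ^ 2 := by rw [hs]; ring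
  rw [h4]
  linarith

/-- BADM -/
theorem t_BADM (hR : S_RJM) (hZ : S_ZB1) : S_BADM := by
  intro V D ε hV hD hε M N hM hN
  have hN0 : (0 : ℝ) < N := by exact_mod_cast hN
  have hM0 : (0 : ℝ) < M := by exact_mod_cast hM
  obtain ⟨s, hs⟩ : ∃ s : ℝ, s = ε / 2 := ⟨_, rfl⟩
  have hs0 : 0 < s := by rw [hs]; linarith
  obtain ⟨c0, C0', δ1, -, hC0', hδ1, hZ1⟩ := hZ (2 * (N : ℝ) + 2) (by linarith)
  obtain ⟨C0, hC0⟩ : ∃ C0 : ℝ, C0 = max C0' 1 := ⟨_, rfl⟩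
  have hC01 : 1 ≤ C0 := by rw [hC0]; exact le_max_right _ _
  have hC0le : C0' ≤ C0 := by rw [hC0]; exact le_max_left _ _
  have hC0p : 0 < C0 := by linarith
  obtain ⟨C1, hC1, lam, δ0, hlam, hδ0, hδ0', hEv⟩ :=
    hR (N + 1) (max V (s / N)) (D + 1) (lt_of_lt_of_le hV (le_max_left _ _)) (by linarith)
  set K : ℝ := C0 ^ (V ^ 2) * C0 ^ (2 * V * s) * C0 ^ (s ^ 2) with hK
  have hKp : 0 < K := by positivity
  refine ⟨M * (C1 * K), by positivity, lam, min δ0 (min δ1 (1 / M)), hlam, ?_, ?_, ?_⟩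
  · exact lt_min hδ0 (lt_min hδ1 (by positivity))
  · exact (min_le_left _ _).trans hδ0'
  filter_upwards [hEv, eventually_ge_atTop ((2 * (N : ℝ)) ^ 2), eventually_gt_atTop 0] with X hX hX2 hX0
  intro δ hδ hδle hlog c hc
  have d1 : δ ≤ δ0 := hδle.trans (min_le_left _ _)
  have d2 : δ ≤ δ1 := (hδle.trans (min_le_right _ _)).trans (min_le_left _ _)
  have d3 : δ ≤ 1 / M := (hδle.trans (min_le_right _ _)).trans (min_le_right _ _)
  have d4 : δ ≤ 1 := by linarith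
  have hz : ∀ x, 0 ≤ z1 δ x := fun x => norm_nonneg _
  have hz0 : z1 δ 0 ≤ C0 / δ := by
    have := (hZ1 δ hδ d2 0 (by rw [abs_zero]; positivity)).2
    rw [abs_zero, max_eq_right hδ.le] at this
    rw [le_div_iff₀ hδ]
    exact this.trans hC0le
  -- one scale
  have one : ∀ j ∈ range M, volume {t : ℝ | 0 ≤ t ∧ t ≤ X ∧ c < mz δ t ∧
      δ ^ (-((j : ℝ) / M * V + ε)) < Gm δ N (δ ^ ((j : ℝ) / M)) t} ≤
      ENNReal.ofReal (X * (δ ^ (D + 1) + C1 * K * c ^ (-(2 * V)) * δ ^ (-V ^ 2 + ε ^ 2 / 2))) := by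
    intro j hj
    rw [Finset.mem_range] at hj
    obtain ⟨a, ha⟩ : ∃ a : ℝ, a = (j : ℝ) / M := ⟨_, rfl⟩
    have ha0 : 0 ≤ a := by rw [ha]; positivity
    have ha1 : a ≤ 1 := by
      rw [ha, div_le_one hM0]
      exact_mod_cast hj.le
    rw [← ha]
    obtain ⟨η, hη⟩ : ∃ η : ℝ, η = δ ^ a := ⟨_, rfl⟩
    have hη0 : 0 < η := by rw [hη]; positivity
    have hη1 : η ≤ 1 := by rw [hη]; exact Real.rpow_le_one hδ.le d4 ha0
    have hηδ : δ ≤ η := by
      rw [hη]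
      conv_lhs => rw [← Real.rpow_one δ]
      exact Real.rpow_le_rpow_of_exponent_ge hδ d4 ha1
    obtain ⟨b, hb'⟩ : ∃ b : ℝ, b = δ ^ (-(a * V + ε)) := ⟨_, rfl⟩
    have hb0 : 0 < b := by rw [hb']; positivity
    rw [← hb', ← hη]
    have hzη : ∀ x, η ≤ |x| → |x| ≤ 2 * (N : ℝ) + 2 → z1 δ x ≤ C0 / η := by
      intro x hx1 hx2
      have h1 := (hZ1 δ hδ d2 x hx2).2
      rw [le_div_iff₀ hη0]
      have h2 : η ≤ max |x| δ := hx1.trans (le_max_left _ _)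
      have h3 := mul_le_mul_of_nonneg_left h2 (hz x)
      linarith
    obtain ⟨S, hSm, hSs, hSv, hSp, hSk⟩ := hX δ hδ d1 hlog (hb N η) (by
      intro i
      refine le_trans ?_ (sqrt_ge hX2)
      refine Fin.cases ?_ (fun i => ?_) i
      · simp only [hb, Fin.cons_zero, abs_zero]; positivity
      · simp only [hb, Fin.cons_succ]
        have hi : ((i : ℕ) : ℝ) + 1 ≤ N := by exact_mod_cast i.isLt
        rw [abs_of_pos (by positivity)]
        nlinarith [mul_le_mul hi hη1 hη0.le hN0.le])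
    obtain ⟨hint, hle⟩ := hSk (kb N V s) (by
      intro i
      refine Fin.cases ?_ (fun i => ?_) i
      · simp only [kb, Fin.cons_zero, abs_of_pos hV]; exact le_max_left _ _
      · simp only [kb, Fin.cons_succ]
        rw [abs_of_pos (by positivity)]
        exact le_max_right _ _)
    have hprod := prod_b (z1 δ) C0 η δ V s (2 * (N : ℝ) + 2) N hN hη0 hη1 hδ hC01 hz hV hs0 hz0
      (by linarith) hzη
    have hcov : {t : ℝ | 0 ≤ t ∧ t ≤ X ∧ c < mz δ t ∧ b < Gm δ N η t} ⊆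
        (Set.Icc 0 X \ S) ∪ ({t : ℝ | c < mz δ t ∧ b < Gm δ N η t} ∩ S) := by
      rintro t ⟨t1, t2, t3, t4⟩
      by_cases hS : t ∈ S
      · exact Or.inr ⟨⟨t3, t4⟩, hS⟩
      · exact Or.inl ⟨⟨t1, t2⟩, hS⟩
    have hSf : volume S ≠ ⊤ := by
      refine ne_top_of_le_ne_top ?_ (measure_mono hSs)
      rw [Real.volume_Icc]
      exact ENNReal.ofReal_ne_top
    have hmk := markov (E := {t : ℝ | c < mz δ t ∧ b < Gm δ N η t}) hSm hSf
      (f := fun t => c ^ (-(2 * V)) * b ^ (-(2 * s)) *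
        ∏ i, mz δ (t + hb N η i) ^ (2 * kb N V s i))
      (hint.const_mul _)
      (fun t _ => by
        apply mul_nonneg (by positivity)
        exact Finset.prod_nonneg fun i _ => Real.rpow_nonneg (norm_nonneg _) _)
      (fun t _ ht => by
        obtain ⟨t3, t4⟩ := ht
        have e1 : ∏ i, mz δ (t + hb N η i) ^ (2 * kb N V s i) =
            mz δ t ^ (2 * V) * Gm δ N η t ^ (2 * s) := by
          rw [Fin.prod_univ_succ, Gm_rpow]
          simp only [hb, kb, Fin.cons_zero, Fin.cons_succ, add_zero]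
        rw [e1, Real.rpow_neg hc.le, Real.rpow_neg hb0.le]
        have e2 : c ^ (2 * V) ≤ mz δ t ^ (2 * V) :=
          Real.rpow_le_rpow hc.le t3.le (by positivity)
        have e3 : b ^ (2 * s) ≤ Gm δ N η t ^ (2 * s) :=
          Real.rpow_le_rpow hb0.le t4.le (by positivity)
        have p1 : 0 < c ^ (2 * V) := by positivity
        have p2 : 0 < b ^ (2 * s) := by positivity
        have e4 : 1 ≤ (mz δ t ^ (2 * V) / c ^ (2 * V)) * (Gm δ N η t ^ (2 * s) / b ^ (2 * s)) :=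
          one_le_mul_of_one_le_of_one_le ((one_le_div p1).2 e2) ((one_le_div p2).2 e3)
        calc (1 : ℝ) ≤ _ := e4
          _ = _ := by field_simp)
      (B := X * (C1 * K * c ^ (-(2 * V)) * δ ^ (-V ^ 2 + ε ^ 2 / 2))) (by
        rw [integral_const_mul]
        have h1 := hle.trans (mul_le_mul_of_nonneg_left hprod (by positivity : 0 ≤ C1 * X))
        have h2 := expo_b C0 δ V s a ε N hN hδ d4 hC01 ha0 ha1 hs
        rw [← hb', ← hη, ← hK] at h2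
        calc c ^ (-(2 * V)) * b ^ (-(2 * s)) * ∫ t in S, ∏ i, mz δ (t + hb N η i) ^ (2 * kb N V s i)
            ≤ c ^ (-(2 * V)) * b ^ (-(2 * s)) * (C1 * X *
              ((C0 / δ) ^ (V ^ 2) * (C0 / η) ^ (2 * V * s) *
                ((C0 / η) ^ (s ^ 2) * (1 / δ) ^ (s ^ 2 / N)))) :=
              mul_le_mul_of_nonneg_left h1 (by positivity)
          _ = c ^ (-(2 * V)) * (C1 * X) * (b ^ (-(2 * s)) * ((C0 / δ) ^ (V ^ 2) *
                (C0 / η) ^ (2 * V * s) * ((C0 / η) ^ (s ^ 2) * (1 / δ) ^ (s ^ 2 / N)))) := by ring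
          _ ≤ c ^ (-(2 * V)) * (C1 * X) * (K * δ ^ (-V ^ 2 + ε ^ 2 / 2)) :=
              mul_le_mul_of_nonneg_left h2 (by positivity)
          _ = _ := by ring)
    calc _ ≤ volume ((Set.Icc 0 X \ S) ∪ ({t : ℝ | c < mz δ t ∧ b < Gm δ N η t} ∩ S)) :=
          measure_mono hcov
      _ ≤ volume (Set.Icc 0 X \ S) + volume ({t : ℝ | c < mz δ t ∧ b < Gm δ N η t} ∩ S) :=
          measure_union_le _ _
      _ ≤ ENNReal.ofReal (δ ^ (D + 1) * X) +
          ENNReal.ofReal (X * (C1 * K * c ^ (-(2 * V)) * δ ^ (-V ^ 2 + ε ^ 2 / 2))) :=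
          add_le_add hSv hmk
      _ = _ := by
          rw [← ENNReal.ofReal_add (by positivity) (by positivity)]
          congr 1
          ring
  have hcov : {t : ℝ | 0 ≤ t ∧ t ≤ X ∧ c < mz δ t ∧ ¬ Gd V ε M N δ t} ⊆
      ⋃ j ∈ range M, {t : ℝ | 0 ≤ t ∧ t ≤ X ∧ c < mz δ t ∧
        δ ^ (-((j : ℝ) / M * V + ε)) < Gm δ N (δ ^ ((j : ℝ) / M)) t} := by
    rintro t ⟨t1, t2, t3, t4⟩
    unfold Gd at t4
    push Not at t4
    obtain ⟨j, hj, h⟩ := t4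
    rw [Set.mem_iUnion₂]
    exact ⟨j, Finset.mem_range.2 hj, t1, t2, t3, h⟩
  calc volume {t : ℝ | 0 ≤ t ∧ t ≤ X ∧ c < mz δ t ∧ ¬ Gd V ε M N δ t}
      ≤ _ := measure_mono hcov
    _ ≤ ∑ j ∈ range M, volume {t : ℝ | 0 ≤ t ∧ t ≤ X ∧ c < mz δ t ∧
        δ ^ (-((j : ℝ) / M * V + ε)) < Gm δ N (δ ^ ((j : ℝ) / M)) t} :=
        measure_biUnion_finset_le _ _
    _ ≤ ∑ _j ∈ range M, ENNReal.ofReal
        (X * (δ ^ (D + 1) + C1 * K * c ^ (-(2 * V)) * δ ^ (-V ^ 2 + ε ^ 2 / 2))) :=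
        Finset.sum_le_sum one
    _ = ENNReal.ofReal (M *
        (X * (δ ^ (D + 1) + C1 * K * c ^ (-(2 * V)) * δ ^ (-V ^ 2 + ε ^ 2 / 2)))) := by
        rw [Finset.sum_const, Finset.card_range, nsmul_eq_mul, ENNReal.ofReal_mul hM0.le,
          ENNReal.ofReal_natCast]
    _ ≤ _ := by
        apply ENNReal.ofReal_le_ofReal
        have h1 : M * δ ^ (D + 1) ≤ δ ^ D := by
          rw [Real.rpow_add_one hδ.ne']
          have h2 : M * δ ≤ 1 := by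
            have := mul_le_mul_of_nonneg_left d3 hM0.le
            rwa [mul_one_div_cancel hM0.ne'] at this
          calc M * (δ ^ D * δ) = (M * δ) * δ ^ D := by ring
            _ ≤ 1 * δ ^ D := mul_le_mul_of_nonneg_right h2 (by positivity)
            _ = δ ^ D := one_mul _
        calc M * (X * (δ ^ (D + 1) + C1 * K * c ^ (-(2 * V)) * δ ^ (-V ^ 2 + ε ^ 2 / 2)))
            = X * (M * δ ^ (D + 1) + M * (C1 * K) * c ^ (-(2 * V)) * δ ^ (-V ^ 2 + ε ^ 2 / 2)) := by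
              ring
          _ ≤ _ := by
              apply mul_le_mul_of_nonneg_left _ hX0.le
              exact add_le_add_left h1 _

end Pool.Agent.V5helper68.PL
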