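import Pool.Agent.V5helper51.PL.Stm

set_option autoImplicit false

/-!
# Project PL (helper51): job ZB1, zeta near the point one (helper68)
-/

namespace Pool.Agent.V5helper68.PL

open Filter Topology Complex
open Pool.Agent.V5helper51.PL

/-- `(s - 1) ζ(s)` with the value `1` at `s = 1` -/
noncomputable def gz : ℂ → ℂ := Function.update (fun s : ℂ => (s - 1) * riemannZeta s) 1 1

lemma gz_of_ne {s : ℂ} (h : s ≠ 1) : gz s = (s - 1) * riemannZeta s := by
  unfold gz
  rw [Function.update_of_ne h]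

lemma gz_cont : Continuous gz := by
  rw [continuous_iff_continuousAt]
  intro s
  by_cases h : s = 1
  · rw [h]
    unfold gz
    rw [continuousAt_update_same]
    exact riemannZeta_residue_one
  · unfold gz
    rw [continuousAt_update_of_ne h]
    exact (continuousAt_id.sub continuousAt_const).mul (differentiableAt_riemannZeta h).continuousAt

lemma gz_ne_zero {s : ℂ} (h : 1 ≤ s.re) : gz s ≠ 0 := by
  by_cases h1 : s = 1
  · rw [h1]
    unfold gz
    rw [Function.update_self]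
    exact one_ne_zero
  · rw [gz_of_ne h1]
    exact mul_ne_zero (sub_ne_zero.2 h1) (riemannZeta_ne_zero_of_one_le_re h)

/-- ZB1 -/
theorem t_ZB1 : S_ZB1 := by
  intro A hA
  have hK : IsCompact (Set.Icc (1 : ℝ) 2 ×ℂ Set.Icc (-A) A) := isCompact_Icc.reProdIm isCompact_Icc
  have hKne : (Set.Icc (1 : ℝ) 2 ×ℂ Set.Icc (-A) A).Nonempty :=
    ⟨1, by rw [Complex.mem_reProdIm]; simp; linarith⟩
  have hcont : ContinuousOn (fun s => ‖gz s‖) (Set.Icc (1 : ℝ) 2 ×ℂ Set.Icc (-A) A) :=
    gz_cont.norm.continuousOn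
  obtain ⟨s0, hs0, hmin⟩ := hK.exists_isMinOn hKne hcont
  obtain ⟨s1, hs1, hmax⟩ := hK.exists_isMaxOn hKne hcont
  have hpos : 0 < ‖gz s0‖ := by
    rw [norm_pos_iff]
    apply gz_ne_zero
    rw [Complex.mem_reProdIm] at hs0
    exact hs0.1.1
  have hpos1 : 0 < ‖gz s1‖ := lt_of_lt_of_le hpos (hmax hs0)
  refine ⟨‖gz s0‖ / 3, ‖gz s1‖, 1 / 2, by positivity, hpos1, by norm_num, ?_⟩
  intro δ hδ hδ2 x hx
  set s : ℂ := ((1 + 2 * δ : ℝ) : ℂ) + (x : ℂ) * I with hs
  have hre : s.re = 1 + 2 * δ := by simp [hs]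
  have him : s.im = x := by simp [hs]
  have hmem : s ∈ Set.Icc (1 : ℝ) 2 ×ℂ Set.Icc (-A) A := by
    rw [Complex.mem_reProdIm, hre, him]
    exact ⟨⟨by linarith, by linarith⟩, abs_le.1 hx⟩
  have hne : s ≠ 1 := by
    intro h
    rw [h] at hre
    simp at hre
    linarith
  have h1 : ‖gz s‖ = ‖s - 1‖ * z1 δ x := by
    rw [gz_of_ne hne, norm_mul]
    rfl
  have hsub : s - 1 = ((2 * δ : ℝ) : ℂ) + (x : ℂ) * I := by
    rw [hs]
    push_cast
    ring
  have hre' : (s - 1).re = 2 * δ := by rw [hsub]; simp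
  have him' : (s - 1).im = x := by rw [hsub]; simp
  have h2 : max |x| δ ≤ ‖s - 1‖ := by
    apply max_le
    · rw [← him']; exact Complex.abs_im_le_norm _
    · have := Complex.abs_re_le_norm (s - 1)
      rw [hre', abs_of_pos (by linarith)] at this
      linarith
  have h3 : ‖s - 1‖ ≤ 3 * max |x| δ := by
    have := Complex.norm_le_abs_re_add_abs_im (s - 1)
    rw [hre', him', abs_of_pos (by linarith : (0:ℝ) < 2 * δ)] at this
    linarith [le_max_left |x| δ, le_max_right |x| δ]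
  have hz : 0 ≤ z1 δ x := norm_nonneg _
  have h4 : ‖gz s0‖ ≤ ‖gz s‖ := hmin hmem
  have h5 : ‖gz s‖ ≤ ‖gz s1‖ := hmax hmem
  rw [h1] at h4 h5
  constructor
  · have := mul_le_mul_of_nonneg_right h3 hz
    linarith
  · have := mul_le_mul_of_nonneg_right h2 hz
    linarith

end Pool.Agent.V5helper68.PL
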